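import Mathlib

/-!
# A Mengerian set system without the minor `Q` whose Menger dual lacks the Menger property

The set system has nine points, arranged in three paths `e₁ m₁ f₁`, `e₂ m₂ f₂`, `e₃ m₃ f₃` (the
points `0 1 2`, `3 4 5`, `6 7 8` below), and ten blocks: the six pairs `eᵢ mᵢ`, `mᵢ fᵢ` and the four
triples `m₁ m₂ m₃`, `m₁ e₂ f₃`, `m₂ e₃ f₁`, `m₃ e₁ f₂`.

* It is Mengerian: for every `c` an explicit packing is as large as one of the ten covers.
* `Q` has four blocks of size three, and so has the system; a minor with four blocks of size three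
  keeps all four triples, which cover all nine points, so it is the whole system; this has ten
  blocks and `Q` has seven.
* Two disjoint covers would give a colouring of the points with two colours in which no block is
  monochromatic, and there is none; but no single point meets all covers.
-/

set_option autoImplicit false

namespace Pool.Agent.Results.MP_f18e63_co.MengerDualCounterexample

open Finset

/-- A set system: a finite set of points together with a finite collection of distinct subsets of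
it, the blocks. -/
structure SetSystem (α : Type) [DecidableEq α] where
  /-- the points -/
  points : Finset α
  /-- the blocks -/
  blocks : Finset (Finset α)
  sub : ∀ B ∈ blocks, B ⊆ points

variable {α β : Type} [DecidableEq α] [DecidableEq β]

/-- The inclusion-minimal members of a collection of finite sets. -/
def minimals (F : Finset (Finset α)) : Finset (Finset α) :=
  F.filter (fun B => ∀ A ∈ F, A ⊆ B → A = B)

/-- `C` meets every member of `F`. -/
def Meets (F : Finset (Finset α)) (C : Finset α) : Prop := ∀ B ∈ F, (B ∩ C).Nonempty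

instance (F : Finset (Finset α)) (C : Finset α) : Decidable (Meets F C) := by
  unfold Meets; infer_instance

/-- The Menger dual: its blocks are the inclusion-minimal sets of points that meet every
inclusion-minimal block. -/
def SetSystem.dual (F : SetSystem α) : SetSystem α where
  points := F.points
  blocks := minimals (F.points.powerset.filter (fun C => Meets (minimals F.blocks) C))
  sub := by
    intro B hB
    unfold minimals at hB
    simp only [mem_filter, mem_powerset] at hB
    exact hB.1.1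

/-- The Menger property: the largest number of pairwise disjoint inclusion-minimal blocks equals
the least cardinality of a block of the Menger dual; by convention a system that has the empty
block has the property. -/
def SetSystem.MengerProperty (F : SetSystem α) : Prop :=
  ∅ ∈ F.blocks ∨ ∃ k : ℕ,
    IsGreatest {n : ℕ | ∃ P : Finset (Finset α), P ⊆ minimals F.blocks ∧
      (∀ A ∈ P, ∀ B ∈ P, A ≠ B → Disjoint A B) ∧ P.card = n} k ∧
    IsLeast {n : ℕ | ∃ C ∈ F.dual.blocks, C.card = n} k

/-- A set system is Mengerian if it has the empty block, or if for every `c` there is a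
nonnegative integer weighting `f` of the blocks in which the blocks through each point `x` have
total weight at most `c x` and whose total weight is the least value of `∑ x ∈ C, c x` over the
blocks `C` of the Menger dual. -/
def SetSystem.Mengerian (F : SetSystem α) : Prop :=
  ∅ ∈ F.blocks ∨ ∀ c : α → ℕ, ∃ f : Finset α → ℕ,
    (∀ x ∈ F.points, ∑ B ∈ F.blocks with x ∈ B, f B ≤ c x) ∧
    (∃ C ∈ F.dual.blocks, ∑ B ∈ F.blocks, f B = ∑ x ∈ C, c x) ∧
    ∀ C ∈ F.dual.blocks, ∑ B ∈ F.blocks, f B ≤ ∑ x ∈ C, c x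

/-- The weak point-restriction: delete the points of `S` from the ground set and from all
blocks. -/
def SetSystem.weak (F : SetSystem α) (S : Finset α) : SetSystem α where
  points := F.points \ S
  blocks := F.blocks.image (fun B => B \ S)
  sub := by
    intro B hB
    simp only [mem_image] at hB
    obtain ⟨A, hA, rfl⟩ := hB
    exact sdiff_subset_sdiff (F.sub A hA) (Subset.refl S)

/-- The strong point-restriction: delete the points of `S` and all blocks that meet `S`. -/
def SetSystem.strong (F : SetSystem α) (S : Finset α) : SetSystem α where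
  points := F.points \ S
  blocks := F.blocks.filter (fun B => B ∩ S = ∅)
  sub := by
    intro B hB
    simp only [mem_filter] at hB
    intro x hx
    rw [mem_sdiff]
    refine ⟨F.sub B hB.1 hx, fun h => ?_⟩
    have h1 : x ∈ B ∩ S := mem_inter.2 ⟨hx, h⟩
    rw [hB.2] at h1
    exact absurd h1 (notMem_empty x)

/-- `IsMinor F G`: the system `G` is reached from `F` by a sequence of weak and strong
point-restrictions. -/
inductive IsMinor (F : SetSystem α) : SetSystem α → Prop
  | refl : IsMinor F F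
  | weak (G : SetSystem α) (S : Finset α) : IsMinor F G → S ⊆ G.points → IsMinor F (G.weak S)
  | strong (G : SetSystem α) (S : Finset α) : IsMinor F G → S ⊆ G.points → IsMinor F (G.strong S)

/-- `F` contains `Q` as a minor: the inclusion-minimal blocks of some minor `G` of `F` become the
blocks of `Q` under a renaming of points (an injective map on the points that lie in these
blocks). -/
def SetSystem.ContainsMinor (F : SetSystem α) (Q : SetSystem β) : Prop :=
  ∃ G : SetSystem α, IsMinor F G ∧ ∃ φ : α → β,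
    Set.InjOn φ {x | ∃ B ∈ minimals G.blocks, x ∈ B} ∧
    (minimals G.blocks).image (fun B => B.image φ) = Q.blocks

/-- The system `Q = (abc, cde, bdf, aef, cf, be, ad)` on the points `a, …, f`, here `0, …, 5`. -/
def Q : SetSystem (Fin 6) where
  points := univ
  blocks := {{0, 1, 2}, {2, 3, 4}, {1, 3, 5}, {0, 4, 5}, {2, 5}, {1, 4}, {0, 3}}
  sub := fun _ _ => subset_univ _

/-- The ten blocks of the counterexample. -/
def bl : Fin 10 → Finset (Fin 9) :=
  ![{0, 1}, {1, 2}, {3, 4}, {4, 5}, {6, 7}, {7, 8}, {1, 4, 7}, {1, 3, 8}, {2, 4, 6}, {0, 5, 7}]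

/-- The counterexample. -/
def F9 : SetSystem (Fin 9) where
  points := univ
  blocks := {{0, 1}, {1, 2}, {3, 4}, {4, 5}, {6, 7}, {7, 8}, {1, 4, 7}, {1, 3, 8}, {2, 4, 6},
    {0, 5, 7}}
  sub := fun _ _ => subset_univ _

lemma blocks_eq : F9.blocks = univ.image bl := by decide +kernel

lemma bl_injective : Function.Injective bl := by decide +kernel

lemma minimals_F9 : minimals F9.blocks = F9.blocks := by decide +kernel

/-- the ten covers -/
def cov : Fin 10 → Finset (Fin 9) :=
  ![{1, 4, 7}, {0, 2, 3, 5, 7}, {1, 3, 5, 6, 8}, {0, 2, 4, 6, 8}, {0, 1, 4, 6, 8},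
    {1, 2, 3, 5, 7}, {0, 2, 3, 4, 7}, {1, 4, 5, 6, 8}, {1, 3, 5, 6, 7}, {0, 2, 4, 7, 8}]

lemma mem_minimals {F : Finset (Finset α)} {B : Finset α} :
    B ∈ minimals F ↔ B ∈ F ∧ ∀ A ∈ F, A ⊆ B → A = B := mem_filter

lemma mem_dual {F : SetSystem α} {C : Finset α} : C ∈ F.dual.blocks ↔
    (C ⊆ F.points ∧ Meets (minimals F.blocks) C) ∧
      ∀ A, A ⊆ C → Meets (minimals F.blocks) A → A = C := by
  unfold SetSystem.dual
  rw [mem_minimals]
  simp only [mem_filter, mem_powerset]
  constructor
  · rintro ⟨⟨h0, h1⟩, h2⟩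
    exact ⟨⟨h0, h1⟩, fun A hA hm => h2 A ⟨hA.trans h0, hm⟩ hA⟩
  · rintro ⟨⟨h0, h1⟩, h2⟩
    exact ⟨⟨h0, h1⟩, fun A hA hAC => h2 A hAC hA.2⟩

lemma mem_dual_iff (C : Finset (Fin 9)) : C ∈ F9.dual.blocks ↔
    Meets F9.blocks C ∧ ∀ A ∈ C.powerset, Meets F9.blocks A → A = C := by
  have h := @mem_dual _ _ F9 C
  have h0 : C ⊆ F9.points := subset_univ _
  rw [h, minimals_F9]
  constructor
  · rintro ⟨h1, h2⟩
    exact ⟨h1.2, fun A hA hm => h2 A (mem_powerset.1 hA) hm⟩
  · rintro ⟨h1, h2⟩
    exact ⟨⟨h0, h1⟩, fun A hAC hA => h2 A (mem_powerset.2 hAC) hA⟩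

lemma cov_mem (k : Fin 10) : cov k ∈ F9.dual.blocks := by
  rw [mem_dual_iff]
  revert k
  decide +kernel

lemma split_le {s A B : ℕ} (h : s ≤ A + B) : ∃ x y : ℕ, x ≤ A ∧ y ≤ B ∧ x + y = s :=
  ⟨min s A, s - min s A, min_le_right _ _, by omega, by omega⟩

/-- The ten weights of covers. -/
def covSum (a b c d e f g h i : ℕ) : Fin 10 → ℕ :=
  ![b + e + h, a + c + d + f + h, b + d + f + g + i, a + c + e + g + i, a + b + e + g + i,
    b + c + d + f + h, a + c + d + e + h, b + e + f + g + i, b + d + f + g + h, a + c + e + h + i]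

/-- The packing: nine capacities, ten block weights, total equal to the weight of a cover. -/
lemma packing (a b c d e f g h i : ℕ) :
    ∃ x1 y1 x2 y2 x3 y3 u v1 v2 v3 : ℕ,
      (x1 + v3 ≤ a ∧ x1 + y1 + u + v1 ≤ b ∧ y1 + v2 ≤ c ∧
      x2 + v1 ≤ d ∧ x2 + y2 + u + v2 ≤ e ∧ y2 + v3 ≤ f ∧
      x3 + v2 ≤ g ∧ x3 + y3 + u + v3 ≤ h ∧ y3 + v1 ≤ i) ∧
      ∃ k, x1 + y1 + x2 + y2 + x3 + y3 + u + v1 + v2 + v3 = covSum a b c d e f g h i k := by
  rcases le_or_gt b (a + c) with h1 | h1 <;> rcases le_or_gt e (d + f) with h2 | h2 <;>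
    rcases le_or_gt h (g + i) with h3 | h3
  · -- no deficit
    obtain ⟨x1, y1, p1, p2, p3⟩ := split_le h1
    obtain ⟨x2, y2, p4, p5, p6⟩ := split_le h2
    obtain ⟨x3, y3, p7, p8, p9⟩ := split_le h3
    exact ⟨x1, y1, x2, y2, x3, y3, 0, 0, 0, 0, by omega, 0, by simp [covSum]; omega⟩
  · -- deficit at path 3 : block `a f h`
    obtain ⟨t, ht⟩ : ∃ t, (t ≤ a ∧ t ≤ f ∧ t ≤ h - (g + i) ∧ t ≤ a + c - b ∧ t ≤ d + f - e) ∧
        (t = a ∨ t = f ∨ t = h - (g + i) ∨ t = a + c - b ∨ t = d + f - e) :=
      ⟨min (min a f) (min (h - (g + i)) (min (a + c - b) (d + f - e))), by omega, by omega⟩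
    obtain ⟨⟨t1, t2, t3, t4, t5⟩, ht⟩ := ht
    obtain ⟨x1, y1, p1, p2, p3⟩ := split_le (s := b) (A := a - t) (B := c) (by omega)
    obtain ⟨x2, y2, p4, p5, p6⟩ := split_le (s := e) (A := d) (B := f - t) (by omega)
    refine ⟨x1, y1, x2, y2, g, i, 0, 0, 0, t, by omega, ?_⟩
    rcases ht with ht | ht | ht | ht | ht
    · exact ⟨4, by simp [covSum]; omega⟩
    · exact ⟨7, by simp [covSum]; omega⟩
    · exact ⟨0, by simp [covSum]; omega⟩
    · exact ⟨3, by simp [covSum]; omega⟩
    · exact ⟨2, by simp [covSum]; omega⟩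
  · -- deficit at path 2 : block `c e g`
    obtain ⟨t, ht⟩ : ∃ t, (t ≤ c ∧ t ≤ g ∧ t ≤ e - (d + f) ∧ t ≤ a + c - b ∧ t ≤ g + i - h) ∧
        (t = c ∨ t = g ∨ t = e - (d + f) ∨ t = a + c - b ∨ t = g + i - h) :=
      ⟨min (min c g) (min (e - (d + f)) (min (a + c - b) (g + i - h))), by omega, by omega⟩
    obtain ⟨⟨t1, t2, t3, t4, t5⟩, ht⟩ := ht
    obtain ⟨x1, y1, p1, p2, p3⟩ := split_le (s := b) (A := a) (B := c - t) (by omega)
    obtain ⟨x3, y3, p7, p8, p9⟩ := split_le (s := h) (A := g - t) (B := i) (by omega)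
    refine ⟨x1, y1, d, f, x3, y3, 0, 0, t, 0, by omega, ?_⟩
    rcases ht with ht | ht | ht | ht | ht
    · exact ⟨5, by simp [covSum]; omega⟩
    · exact ⟨8, by simp [covSum]; omega⟩
    · exact ⟨0, by simp [covSum]; omega⟩
    · exact ⟨1, by simp [covSum]; omega⟩
    · exact ⟨2, by simp [covSum]; omega⟩
  · -- deficits at paths 2 and 3
    obtain ⟨x1, y1, p1, p2, p3⟩ := split_le h1
    exact ⟨x1, y1, d, f, g, i, 0, 0, 0, 0, by omega, 2, by simp [covSum]; omega⟩
  · -- deficit at path 1 : block `b d i`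
    obtain ⟨t, ht⟩ : ∃ t, (t ≤ d ∧ t ≤ i ∧ t ≤ b - (a + c) ∧ t ≤ d + f - e ∧ t ≤ g + i - h) ∧
        (t = d ∨ t = i ∨ t = b - (a + c) ∨ t = d + f - e ∨ t = g + i - h) :=
      ⟨min (min d i) (min (b - (a + c)) (min (d + f - e) (g + i - h))), by omega, by omega⟩
    obtain ⟨⟨t1, t2, t3, t4, t5⟩, ht⟩ := ht
    obtain ⟨x2, y2, p4, p5, p6⟩ := split_le (s := e) (A := d - t) (B := f) (by omega)
    obtain ⟨x3, y3, p7, p8, p9⟩ := split_le (s := h) (A := g) (B := i - t) (by omega)
    refine ⟨a, c, x2, y2, x3, y3, 0, t, 0, 0, by omega, ?_⟩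
    rcases ht with ht | ht | ht | ht | ht
    · exact ⟨6, by simp [covSum]; omega⟩
    · exact ⟨9, by simp [covSum]; omega⟩
    · exact ⟨0, by simp [covSum]; omega⟩
    · exact ⟨1, by simp [covSum]; omega⟩
    · exact ⟨3, by simp [covSum]; omega⟩
  · -- deficits at paths 1 and 3
    obtain ⟨x2, y2, p4, p5, p6⟩ := split_le h2
    exact ⟨a, c, x2, y2, g, i, 0, 0, 0, 0, by omega, 3, by simp [covSum]; omega⟩
  · -- deficits at paths 1 and 2
    obtain ⟨x3, y3, p7, p8, p9⟩ := split_le h3
    exact ⟨a, c, d, f, x3, y3, 0, 0, 0, 0, by omega, 1, by simp [covSum]; omega⟩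
  · -- all three
    obtain ⟨t, ht⟩ : ∃ t, (t ≤ b - (a + c) ∧ t ≤ e - (d + f) ∧ t ≤ h - (g + i)) ∧
        (t = b - (a + c) ∨ t = e - (d + f) ∨ t = h - (g + i)) :=
      ⟨min (b - (a + c)) (min (e - (d + f)) (h - (g + i))), by omega, by omega⟩
    obtain ⟨⟨t1, t2, t3⟩, ht⟩ := ht
    refine ⟨a, c, d, f, g, i, t, 0, 0, 0, by omega, ?_⟩
    rcases ht with ht | ht | ht
    · exact ⟨2, by simp [covSum]; omega⟩
    · exact ⟨3, by simp [covSum]; omega⟩
    · exact ⟨1, by simp [covSum]; omega⟩

/-- Weak duality: a packing is at most the weight of any set that meets all blocks. -/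
lemma weak_duality (F : Finset (Finset (Fin 9))) (C : Finset (Fin 9)) (hC : Meets F C)
    (c : Fin 9 → ℕ) (f : Finset (Fin 9) → ℕ)
    (h : ∀ x, ∑ B ∈ F with x ∈ B, f B ≤ c x) : ∑ B ∈ F, f B ≤ ∑ x ∈ C, c x := by
  calc ∑ B ∈ F, f B ≤ ∑ B ∈ F, ∑ x ∈ C, (if x ∈ B then f B else 0) := by
        refine sum_le_sum fun B hB => ?_
        obtain ⟨x, hx⟩ := hC B hB
        rw [mem_inter] at hx
        have h1 := single_le_sum (f := fun x => if x ∈ B then f B else 0)
          (fun _ _ => Nat.zero_le _) hx.2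
        simpa [hx.1] using h1
    _ = ∑ x ∈ C, ∑ B ∈ F, (if x ∈ B then f B else 0) := sum_comm
    _ ≤ ∑ x ∈ C, c x := by
        refine sum_le_sum fun x _ => ?_
        rw [← sum_filter]
        exact h x

lemma mengerian : F9.Mengerian := by
  right
  intro c
  obtain ⟨x1, y1, x2, y2, x3, y3, u, v1, v2, v3, ⟨h0, h1, h2, h3, h4, h5, h6, h7, h8⟩, k, ht⟩ :=
    packing (c 0) (c 1) (c 2) (c 3) (c 4) (c 5) (c 6) (c 7) (c 8)
  let g : Fin 10 → ℕ := ![x1, y1, x2, y2, x3, y3, u, v1, v2, v3]
  let f : Finset (Fin 9) → ℕ := fun B => ∑ k, if bl k = B then g k else 0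
  have hf : ∀ k, f (bl k) = g k := by
    intro k
    simp only [f, bl_injective.eq_iff]
    simp
  have hsum : ∑ B ∈ F9.blocks, f B = ∑ k, g k := by
    rw [blocks_eq, sum_image (fun _ _ _ _ h => bl_injective h)]
    exact sum_congr rfl fun k _ => hf k
  have hfil : ∀ x, ∑ B ∈ F9.blocks with x ∈ B, f B = ∑ k, if x ∈ bl k then g k else 0 := by
    intro x
    rw [sum_filter, blocks_eq, sum_image (fun _ _ _ _ h => bl_injective h)]
    exact sum_congr rfl fun k _ => by rw [hf k]
  have hpack : ∀ x, ∑ B ∈ F9.blocks with x ∈ B, f B ≤ c x := by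
    intro x
    rw [hfil]
    fin_cases x <;> simp [Fin.sum_univ_succ, bl, g] <;> omega
  refine ⟨f, fun x _ => hpack x, ?_, fun C hC => ?_⟩
  · rw [hsum]
    refine ⟨cov k, cov_mem k, ?_⟩
    have htot : ∑ k, g k = x1 + y1 + x2 + y2 + x3 + y3 + u + v1 + v2 + v3 := by
      simp [Fin.sum_univ_succ, g]; ring
    rw [htot, ht]
    fin_cases k <;> simp [cov, covSum] <;> ring
  · rw [mem_dual_iff] at hC
    exact weak_duality _ C hC.1 c f hpack

/-- The shape of a minor: contract `X`, delete `Y`. -/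
lemma minor_form {F G : SetSystem α} (h : IsMinor F G) : ∃ X Y : Finset α,
    Disjoint G.points X ∧
    G.blocks = (F.blocks.filter (fun B => B ∩ Y = ∅)).image (fun B => B \ X) := by
  induction h with
  | refl => exact ⟨∅, ∅, disjoint_empty_right _, by simp⟩
  | weak G S _ hS ih =>
    obtain ⟨X, Y, h1, h2⟩ := ih
    refine ⟨X ∪ S, Y, ?_, ?_⟩
    · rw [disjoint_union_right]
      exact ⟨h1.mono_left sdiff_subset, sdiff_disjoint⟩
    · show G.blocks.image (fun B => B \ S) = _
      rw [h2, image_image]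
      refine image_congr fun B _ => ?_
      simp only [Function.comp]
      rw [sdiff_sdiff_left]
      rfl
  | strong G S _ hS ih =>
    obtain ⟨X, Y, h1, h2⟩ := ih
    refine ⟨X, Y ∪ S, h1.mono_left sdiff_subset, ?_⟩
    have hXS : Disjoint X S := (h1.mono_left hS).symm
    show G.blocks.filter (fun B => B ∩ S = ∅) = _
    rw [h2, filter_image, filter_filter]
    congr 1
    refine filter_congr fun B _ => ?_
    have h3 : (B \ X) ∩ S = B ∩ S := by
      ext x
      simp only [mem_inter, mem_sdiff]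
      constructor
      · rintro ⟨⟨a, -⟩, b⟩; exact ⟨a, b⟩
      · rintro ⟨a, b⟩
        exact ⟨⟨a, fun hx => (disjoint_left.1 hXS) hx b⟩, b⟩
    rw [h3, inter_union_distrib_left, union_eq_empty]

lemma no_Q : ¬ F9.ContainsMinor Q := by
  rintro ⟨G, hG, φ, hinj, him⟩
  obtain ⟨X, Y, -, hb⟩ := minor_form hG
  have hc : ∀ B ∈ F9.blocks, B.card ≤ 3 := by decide +kernel
  -- the blocks of size three
  have hmem : ∀ D ∈ (minimals G.blocks).filter (fun D => D.card = 3),
      D ∈ F9.blocks.filter (fun B => B.card = 3 ∧ B ∩ X = ∅ ∧ B ∩ Y = ∅) := by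
    intro D hD
    rw [mem_filter] at hD
    obtain ⟨hD, h3⟩ := hD
    have hD' : D ∈ G.blocks := (mem_minimals.1 hD).1
    rw [hb, mem_image] at hD'
    obtain ⟨B, hB, rfl⟩ := hD'
    rw [mem_filter] at hB
    have h4 := hc B hB.1
    have h5 : B \ X = B := by
      apply eq_of_subset_of_card_le sdiff_subset
      omega
    rw [h5] at h3 ⊢
    rw [mem_filter]
    refine ⟨hB.1, h3, ?_, hB.2⟩
    rw [← disjoint_iff_inter_eq_empty]
    exact sdiff_eq_self_iff_disjoint.1 h5
  have h1 : 4 ≤ ((minimals G.blocks).filter (fun D => D.card = 3)).card := by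
    have h2 : Q.blocks.filter (fun D => D.card = 3) ⊆
        ((minimals G.blocks).filter (fun D => D.card = 3)).image (fun B => B.image φ) := by
      intro E hE
      rw [mem_filter, ← him, mem_image] at hE
      obtain ⟨⟨D, hD, rfl⟩, h3⟩ := hE
      rw [mem_image]
      refine ⟨D, ?_, rfl⟩
      rw [mem_filter]
      refine ⟨hD, ?_⟩
      rw [← h3]
      refine (card_image_of_injOn (hinj.mono ?_)).symm
      intro x hx
      exact ⟨D, hD, hx⟩
    have h4 : (Q.blocks.filter (fun D => D.card = 3)).card = 4 := by decide +kernel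
    calc 4 = (Q.blocks.filter (fun D => D.card = 3)).card := h4.symm
      _ ≤ _ := card_le_card h2
      _ ≤ _ := card_image_le
  have h2 : (F9.blocks.filter (fun B => B.card = 3)).card = 4 := by decide +kernel
  have h3 : F9.blocks.filter (fun B => B.card = 3 ∧ B ∩ X = ∅ ∧ B ∩ Y = ∅) =
      F9.blocks.filter (fun B => B.card = 3) := by
    apply eq_of_subset_of_card_le
    · intro B hB
      rw [mem_filter] at hB ⊢
      exact ⟨hB.1, hB.2.1⟩
    · rw [h2]
      exact h1.trans (card_le_card hmem)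
  have h4 : ∀ x : Fin 9, x ∉ X ∧ x ∉ Y := by
    intro x
    have hx : ∀ x : Fin 9, ∃ B ∈ F9.blocks.filter (fun B => B.card = 3), x ∈ B := by
      decide +kernel
    obtain ⟨B, hB, hxB⟩ := hx x
    rw [← h3, mem_filter] at hB
    constructor
    · intro h
      have : x ∈ B ∩ X := mem_inter.2 ⟨hxB, h⟩
      rw [hB.2.2.1] at this
      exact absurd this (notMem_empty x)
    · intro h
      have : x ∈ B ∩ Y := mem_inter.2 ⟨hxB, h⟩
      rw [hB.2.2.2] at this
      exact absurd this (notMem_empty x)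
  have hX : X = ∅ := eq_empty_of_forall_notMem fun x => (h4 x).1
  have hY : Y = ∅ := eq_empty_of_forall_notMem fun x => (h4 x).2
  have hG9 : G.blocks = F9.blocks := by
    rw [hb, hX, hY]
    simp
  rw [hG9, minimals_F9] at hinj
  have hall : ∀ x : Fin 9, ∃ B ∈ F9.blocks, x ∈ B := by decide +kernel
  have hφ : Function.Injective φ := fun x y hxy => hinj (hall x) (hall y) hxy
  have := Fintype.card_le_of_injective φ hφ
  simp at this

/-- No two sets that meet all blocks are disjoint. -/
lemma not_disjoint_of_meets {A B : Finset (Fin 9)} (hA : Meets F9.blocks A)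
    (hB : Meets F9.blocks B) : ¬ Disjoint A B := by
  intro hAB
  have h1 : Meets F9.blocks Aᶜ := by
    intro C hC
    obtain ⟨x, hx⟩ := hB C hC
    rw [mem_inter] at hx
    exact ⟨x, mem_inter.2 ⟨hx.1, mem_compl.2 fun h => disjoint_left.1 hAB h hx.2⟩⟩
  have key : ∀ A : Finset (Fin 9), Meets F9.blocks A → ¬ Meets F9.blocks Aᶜ := by
    decide +kernel
  exact key A hA h1

lemma cov_mem_minimals (k : Fin 10) : cov k ∈ minimals F9.dual.blocks := by
  refine mem_minimals.2 ⟨cov_mem k, fun A hA hAk => ?_⟩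
  exact ((mem_dual_iff _).1 (cov_mem k)).2 A (mem_powerset.2 hAk) ((mem_dual_iff _).1 hA).1

lemma dual_not_menger : ¬ F9.dual.MengerProperty := by
  rintro (h | ⟨k, ⟨⟨P, hP, hdisj, hPk⟩, -⟩, ⟨E, hE, hEk⟩, -⟩)
  · have h1 := ((mem_dual_iff _).1 h).1
    revert h1
    decide +kernel
  · have hk : k ≤ 1 := by
      rw [← hPk, card_le_one]
      intro A hA B hB
      by_contra hne
      have hA' := ((mem_dual_iff _).1 (mem_minimals.1 (hP hA)).1).1
      have hB' := ((mem_dual_iff _).1 (mem_minimals.1 (hP hB)).1).1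
      exact not_disjoint_of_meets hA' hB' (hdisj A hA B hB hne)
    have hmeet : Meets (minimals F9.dual.blocks) E := (mem_dual.1 hE).1.2
    have hx : ∃ x : Fin 9, E ⊆ {x} := by
      rw [← hEk, card_le_one_iff_subset_singleton] at hk
      exact hk
    obtain ⟨x, hx⟩ := hx
    have h3 : ∀ x : Fin 9, ∃ k : Fin 10, x ∉ cov k := by decide +kernel
    obtain ⟨j, hj⟩ := h3 x
    obtain ⟨y, hy⟩ := hmeet _ (cov_mem_minimals j)
    rw [mem_inter] at hy
    have h4 := mem_singleton.1 (hx hy.2)
    rw [h4] at hy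
    exact hj hy.1

/-- There is a Mengerian set system (with nine points and ten blocks, none of which contains
another) that does not contain `Q` as a minor and whose Menger dual does not have the Menger
property. So the implication `Mengerian and no minor Q → the dual has the Menger property`
fails. -/
theorem result :
    (∃ F : SetSystem (Fin 9), F.points = univ ∧
      F.blocks = {{0, 1}, {1, 2}, {3, 4}, {4, 5}, {6, 7}, {7, 8}, {1, 4, 7}, {1, 3, 8}, {2, 4, 6},
        {0, 5, 7}} ∧
      F.Mengerian ∧ ¬ F.ContainsMinor Q ∧ ¬ F.dual.MengerProperty) ∧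
    ¬ ∀ (α : Type) (_ : DecidableEq α) (F : SetSystem α),
      F.Mengerian → ¬ F.ContainsMinor Q → F.dual.MengerProperty :=
  ⟨⟨F9, rfl, rfl, mengerian, no_Q, dual_not_menger⟩,
    fun h => dual_not_menger (h _ _ F9 mengerian no_Q)⟩

end Pool.Agent.Results.MP_f18e63_co.MengerDualCounterexample
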